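import Pool.Agent.W206.ND.Stm

/-!
# Project ND: shifts
-/

set_option autoImplicit false

namespace Pool.Agent.W386.ND.SH

open Filter Topology
open Pool.Agent.W206.ND

theorem z0_shift (b c : ℕ) (y : ℝ) (N : ℕ) : Z0 b (y * (b : ℝ) ^ c) N ≤ Z0 b y (N + c) := by
  unfold Z0
  refine Finset.card_le_card_of_injOn (fun i => i + c) ?_ ?_
  · intro i hi
    simp only [Finset.coe_filter, Finset.mem_Icc, Set.mem_setOf_eq] at hi ⊢
    obtain ⟨⟨h1, h2⟩, h3⟩ := hi
    refine ⟨⟨by omega, by omega⟩, ?_⟩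
    have e : y * (b : ℝ) ^ (i + c) = y * (b : ℝ) ^ c * (b : ℝ) ^ i := by
      rw [pow_add]; ring
    rw [e]
    exact h3
  · intro i _ j _ h
    simpa using h

theorem main : S_SH := by
  intro b c x hb hx r ε hε
  have hb0 : (b : ℝ) ≠ 0 := by
    have : 0 < b := by omega
    exact_mod_cast this.ne'
  have hbpos : (0 : ℝ) < b := by
    have : 0 < b := by omega
    exact_mod_cast this
  -- the number `y`
  set q : ℚ := r / (b : ℚ) ^ c with hq
  have hy : x * (b : ℝ) ^ c + r = (x + (q : ℝ)) * (b : ℝ) ^ c := by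
    rw [hq]
    push_cast
    field_simp
  rw [hy]
  have h := hx q (ε / 2) (by positivity)
  have h2 : ∀ᶠ N : ℕ in atTop, (Z0 b (x + (q : ℝ)) (N + c) : ℝ) ≤
      (1 / (b : ℝ) + ε / 2) * ((N + c : ℕ) : ℝ) :=
    (tendsto_add_atTop_nat c).eventually h
  have h3 : ∀ᶠ N : ℕ in atTop, (1 / (b : ℝ) + ε / 2) * c ≤ ε / 2 * (N : ℝ) := by
    have : Tendsto (fun N : ℕ => ε / 2 * (N : ℝ)) atTop atTop :=
      Tendsto.const_mul_atTop (by positivity) tendsto_natCast_atTop_atTop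
    exact this.eventually_ge_atTop _
  filter_upwards [h2, h3] with N hN1 hN2
  calc (Z0 b ((x + (q : ℝ)) * (b : ℝ) ^ c) N : ℝ)
      ≤ (Z0 b (x + (q : ℝ)) (N + c) : ℝ) := by exact_mod_cast z0_shift b c _ N
    _ ≤ (1 / (b : ℝ) + ε / 2) * ((N + c : ℕ) : ℝ) := hN1
    _ = (1 / (b : ℝ) + ε / 2) * N + (1 / (b : ℝ) + ε / 2) * c := by push_cast; ring
    _ ≤ (1 / (b : ℝ) + ε / 2) * N + ε / 2 * N := by linarith
    _ = (1 / (b : ℝ) + ε) * N := by ring

end Pool.Agent.W386.ND.SH
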